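import Pool.Agent.H2.GA.Defs

/-!
# [H2 GA CNN] The graph of a large subset of a planar difference set is connected and regular

PROOF.  Regular: every `x` is on `|D'|` blocks and conversely (translations; see H17/Example33.lean, `degP`, `degB`, `mem_regular`
for the same shape).  `|V| = 2|G| ≥ 3` because `|D'| ≥ 2`.  CONNECTED: for a point `x` let `N x = {x + a - b : a, b ∈ D'}`.  By
`Planar D` (and `D' ⊆ D`) the elements `a - b`, `a ≠ b`, are nonzero and distinct for distinct pairs, so
`|N x| = |D'| (|D'| - 1) + 1 > |G| / 2`.  Every `z ∈ N x` is reachable from `x` (`x` ~ block `x + a` ~ point `x + a - b`: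
`CI D' x y` iff `y - x ∈ D'`).  For two points `x, x'` the sets `N x`, `N x'` meet (`hc`), so `x, x'` are connected; every block is adjacent
to a point (`D'` nonempty).
-/

namespace Pool.Agent.H2.GA

open Finset Pool.Agent.H17

open Classical in
private theorem card_diff {G : Type} [AddCommGroup G] (D D' : Finset G) (h : D' ⊆ D)
    (hD : Planar D) (hd : 2 ≤ D'.card) :
    D'.card * (D'.card - 1) + 1 ≤ ((D' ×ˢ D').image fun z => z.1 - z.2).card := by
  have hinj : Set.InjOn (fun z : G × G => z.1 - z.2) (D'.offDiag : Set (G × G)) := by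
    rintro ⟨a, b⟩ hz ⟨a', b'⟩ hz' he
    rw [Finset.mem_coe, Finset.mem_offDiag] at hz hz'
    have he' : a - b = a' - b' := he
    obtain ⟨w, _, hw⟩ := hD (a - b) (sub_ne_zero.2 hz.2.2)
    rw [hw (a, b) ⟨h hz.1, h hz.2.1, rfl⟩, hw (a', b') ⟨h hz'.1, h hz'.2.1, he'.symm⟩]
  have h0 : (0 : G) ∉ D'.offDiag.image fun z => z.1 - z.2 := by
    intro h0
    obtain ⟨⟨a, b⟩, hz, he⟩ := Finset.mem_image.1 h0
    rw [Finset.mem_offDiag] at hz
    exact hz.2.2 (sub_eq_zero.1 he)
  have hsub : insert (0 : G) (D'.offDiag.image fun z => z.1 - z.2) ⊆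
      (D' ×ˢ D').image fun z => z.1 - z.2 := by
    intro g hg
    rw [Finset.mem_insert] at hg
    rw [Finset.mem_image]
    rcases hg with rfl | hg
    · obtain ⟨a, ha⟩ : D'.Nonempty := Finset.card_pos.1 (by omega)
      exact ⟨(a, a), Finset.mem_product.2 ⟨ha, ha⟩, sub_self a⟩
    · obtain ⟨⟨a, b⟩, hz, he⟩ := Finset.mem_image.1 hg
      rw [Finset.mem_offDiag] at hz
      exact ⟨(a, b), Finset.mem_product.2 ⟨hz.1, hz.2.1⟩, he⟩
  have h1 := Finset.card_le_card hsub
  rw [Finset.card_insert_of_notMem h0, Finset.card_image_of_injOn hinj, Finset.offDiag_card] at h1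
  have h2 : D'.card * (D'.card - 1) = D'.card * D'.card - D'.card := by
    rw [Nat.mul_sub, Nat.mul_one]
  rw [h2]
  exact h1

private theorem reach_diff {G : Type} [AddCommGroup G] (D' : Finset G) (x a b : G) (ha : a ∈ D') (hb : b ∈ D') :
    (incidenceGraph (CI D')).Reachable (Sum.inl x) (Sum.inl (x + (a - b))) := by
  have a1 : (incidenceGraph (CI D')).Adj (Sum.inl x) (Sum.inr (x + a)) := by
    show x + a - x ∈ D'
    rwa [add_sub_cancel_left]
  have a2 : (incidenceGraph (CI D')).Adj (Sum.inr (x + a)) (Sum.inl (x + (a - b))) := by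
    show x + a - (x + (a - b)) ∈ D'
    have h : x + a - (x + (a - b)) = b := by abel
    rwa [h]
  exact a1.reachable.trans a2.reachable

open Classical in
private theorem degP {G : Type} [AddCommGroup G] [Fintype G] (D' : Finset G) (x : G) :
    (univ.filter fun y : G => CI D' x y).card = D'.card := by
  symm
  refine Finset.card_bij (fun s _ => s + x) ?_ ?_ ?_
  · intro s hs
    refine mem_filter.2 ⟨mem_univ _, ?_⟩
    show s + x - x ∈ D'
    rwa [add_sub_cancel_right]
  · intro s _ t _ hst
    exact add_right_cancel hst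
  · intro y hy
    exact ⟨y - x, (mem_filter.1 hy).2, sub_add_cancel y x⟩

open Classical in
private theorem degB {G : Type} [AddCommGroup G] [Fintype G] (D' : Finset G) (y : G) :
    (univ.filter fun x : G => CI D' x y).card = D'.card := by
  symm
  refine Finset.card_bij (fun s _ => y - s) ?_ ?_ ?_
  · intro s hs
    refine mem_filter.2 ⟨mem_univ _, ?_⟩
    show y - (y - s) ∈ D'
    rwa [sub_sub_cancel]
  · intro s _ t _ hst
    exact sub_right_injective hst
  · intro x hx
    exact ⟨y - x, (mem_filter.1 hx).2, sub_sub_cancel y x⟩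

theorem conn {G : Type} [AddCommGroup G] [Fintype G] (D D' : Finset G) (h : D' ⊆ D)
    (hD : Planar D) (hd : 2 ≤ D'.card)
    (hc : Fintype.card G < 2 * (D'.card * (D'.card - 1) + 1)) :
    InRegular D'.card (incidenceGraph (CI D')) := by
  classical
  have hM := card_diff D D' h hD hd
  have hconn : ∀ p q : G, (incidenceGraph (CI D')).Reachable (Sum.inl p) (Sum.inl q) := by
    intro p q
    have e1 : ∀ x : G, (((D' ×ˢ D').image fun z => z.1 - z.2).image fun g => x + g).card =
        ((D' ×ˢ D').image fun z => z.1 - z.2).card := fun x =>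
      Finset.card_image_of_injective _ fun _ _ hst => add_left_cancel hst
    obtain ⟨w, hw⟩ := Finset.inter_nonempty_of_card_lt_card_add_card
      (s := (univ : Finset G)) (Finset.subset_univ (((D' ×ˢ D').image fun z => z.1 - z.2).image fun g => p + g))
      (Finset.subset_univ (((D' ×ˢ D').image fun z => z.1 - z.2).image fun g => q + g)) (by
        rw [e1, e1, Finset.card_univ]
        omega)
    rw [Finset.mem_inter] at hw
    have key : ∀ x : G, w ∈ ((D' ×ˢ D').image fun z => z.1 - z.2).image (fun g => x + g) →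
        (incidenceGraph (CI D')).Reachable (Sum.inl x) (Sum.inl w) := by
      intro x hx
      obtain ⟨g, hg, rfl⟩ := Finset.mem_image.1 hx
      obtain ⟨⟨a, b⟩, hz, rfl⟩ := Finset.mem_image.1 hg
      rw [Finset.mem_product] at hz
      exact reach_diff D' x a b hz.1 hz.2
    exact (key p hw.1).trans (key q hw.2).symm
  have hline : ∀ l : G, ∃ p : G, (incidenceGraph (CI D')).Reachable (Sum.inr l) (Sum.inl p) := by
    intro l
    have : 0 < (univ.filter fun p : G => CI D' p l).card := by rw [degB]; omega
    obtain ⟨p, hp⟩ := card_pos.1 this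
    have a1 : (incidenceGraph (CI D')).Adj (Sum.inr l) (Sum.inl p) := (mem_filter.1 hp).2
    exact ⟨p, a1.reachable⟩
  refine ⟨?_, ?_, ?_⟩
  · rw [Fintype.card_sum]
    have h1 : D'.card ≤ Fintype.card G := Finset.card_le_univ D'
    omega
  · have : Nonempty (G ⊕ G) := ⟨Sum.inl 0⟩
    refine SimpleGraph.Connected.mk ?_
    rintro (p | l) (q | m)
    · exact hconn p q
    · obtain ⟨q, hq⟩ := hline m
      exact (hconn p q).trans hq.symm
    · obtain ⟨p, hp⟩ := hline l
      exact hp.trans (hconn p q)
    · obtain ⟨p, hp⟩ := hline l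
      obtain ⟨q, hq⟩ := hline m
      exact hp.trans ((hconn p q).trans hq.symm)
  · rintro (p | l)
    · rw [inc_degree_inl]; exact degP D' p
    · rw [inc_degree_inr]; exact degB D' l

end Pool.Agent.H2.GA
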