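import Mathlib
import Pool.Agent.H17.Incidence

/-!
# [H2 GA] Asymptotic value of `gap(G_{=d})` and `gap(G_{≥d})` for all `d`: definitions

MP_2920eb_co.  TARGET (`Fin.lean`): for every `A > 0` and all large `d` (no condition on planes)
`(1 - (log d)^(-A))/√d ≤ gap(G_{=d}) ≤ gap(G_{≥d}) ≤ √(d-1)/d`.

IDEA.  A prime `p` with `d - 1 ≤ p ≤ d - 1 + d/(log d)^B`, a planar difference set `D` (Singer) with `p + 1`
elements in an abelian group `G` with `v = p^2 + p + 1` elements: `|∑_D ψ|^2 = p` for every nontrivial character.  Remove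
a random subset `R` with `s = p + 1 - d` elements whose character sums are `O(√(s log v)) = o(√p)`.  The bipartite graph
`x ~ y` iff `y - x ∈ D \ R` is `d`-regular with all eigenvalues of modulus `≥ √p - o(√p)`.
-/

namespace Pool.Agent.H2.GA

open Finset Pool.Agent.H17

/-- The point `x` is on the block `y` iff `y - x ∈ D`. -/
def CI {G : Type} [AddCommGroup G] (D : Finset G) (x y : G) : Prop := y - x ∈ D

/-- Planar difference set: every nonzero element is a difference of elements of `D` exactly once. -/
def Planar {G : Type} [AddCommGroup G] (D : Finset G) : Prop :=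
  ∀ g : G, g ≠ 0 → ∃! z : G × G, z.1 ∈ D ∧ z.2 ∈ D ∧ z.1 - z.2 = g

end Pool.Agent.H2.GA
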