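import Pool.Agent.H43.SI.Psi

/-!
# [H2 GA PRM] Primes in intervals of length `n/(log n)^A`

PROOF.  `Pool.Agent.H43.SI.psi_log` with `q = 1`, exponent `A + 1` (the character mod `1` is `1`): `|ψ(x) - x| ≤ C x (log x)^(-(A+1))`
for `x ≥ 2`.  Let `h = n/(log n)^A ≤ n`, `x = n - 1`, `x' = n + h`.  Then
`ψ(x') - ψ(x) ≥ h - K n (log n)^(-(A+1)) ≥ 3h/4` for large `n`. The proper prime powers contribute
`≤ ψ(2n) - θ(2n) ≤ 2 √(2n) log (2n) < h/4`. So some prime lies in `[n, n + h]`.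
-/

namespace Pool.Agent.H2.GA

open Finset

/-- The prime number theorem with error `x (log x)^(-A)`, real form. -/
private theorem psi_real (A : ℝ) (hA : 0 < A) : ∃ C : ℝ, 0 < C ∧ ∀ x : ℝ, 2 ≤ x →
    |Chebyshev.psi x - x| ≤ C * x * (Real.log x) ^ (-A) := by
  obtain ⟨C, hC, h⟩ := Pool.Agent.H43.SI.psi_log 1 A hA
  refine ⟨C, hC, fun x hx => ?_⟩
  have h1 := h 1 x hx
  rw [if_pos rfl] at h1
  have h2 : ∑ n ∈ Icc 1 ⌊x⌋₊, ((ArithmeticFunction.vonMangoldt n : ℝ) : ℂ) *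
      (1 : DirichletCharacter ℂ 1) n - (x : ℂ) = ((Chebyshev.psi x - x : ℝ) : ℂ) := by
    rw [Chebyshev.psi]
    push_cast
    congr 1
    have e1 : Icc 1 ⌊x⌋₊ = Ioc 0 ⌊x⌋₊ := by
      ext n; simp [Finset.mem_Icc, Finset.mem_Ioc]; omega
    rw [e1]
    refine Finset.sum_congr rfl fun n _ => ?_
    have : (1 : DirichletCharacter ℂ 1) (n : ZMod 1) = 1 := by
      apply MulChar.one_apply
      exact isUnit_of_subsingleton _
    rw [this, mul_one]
  rw [h2, Complex.norm_real, Real.norm_eq_abs] at h1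
  exact h1

/-- A jump of `θ` gives a prime. -/
private theorem prime_of_theta {x y : ℝ} (hx : 0 ≤ x) (hy : 0 ≤ y) (h : Chebyshev.theta x < Chebyshev.theta y) :
    ∃ p : ℕ, p.Prime ∧ x < p ∧ (p : ℝ) ≤ y := by
  by_contra hcon
  push Not at hcon
  refine absurd h (not_lt.2 ?_)
  rw [Chebyshev.theta, Chebyshev.theta]
  refine Finset.sum_le_sum_of_subset_of_nonneg ?_ ?_
  · intro p hp
    rw [Finset.mem_filter, Finset.mem_Ioc] at hp ⊢
    refine ⟨⟨hp.1.1, ?_⟩, hp.2⟩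
    rw [Nat.le_floor_iff hx]
    by_contra hc
    rw [not_le] at hc
    exact absurd ((Nat.le_floor_iff hy).1 hp.1.2) (not_le.2 (hcon p hp.2 hc))
  · intro p _ _
    exact Real.log_natCast_nonneg p

theorem primes (A : ℝ) (hA : 0 < A) : ∃ N : ℕ, 3 ≤ N ∧ ∀ n : ℕ, N ≤ n →
    ∃ p : ℕ, p.Prime ∧ n ≤ p ∧ (p : ℝ) ≤ n + n / (Real.log n) ^ A := by
  obtain ⟨C, hC, hpsi⟩ := psi_real (A + 1) (by linarith)
  set K : ℝ := C * (2 + 2 ^ (A + 1)) with hK
  have hK0 : 0 < K := by positivity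
  have e1 : ∀ᶠ x : ℝ in Filter.atTop, ‖(Real.log x) ^ (A + 1)‖ ≤ 1 / 100 * ‖x ^ (1 / 2 : ℝ)‖ :=
    (isLittleO_log_rpow_rpow_atTop (A + 1) (by norm_num : (0 : ℝ) < 1 / 2)).bound (by norm_num)
  have e2 : ∀ᶠ x : ℝ in Filter.atTop, max 1 (4 * K) ≤ Real.log x :=
    Real.tendsto_log_atTop.eventually_ge_atTop _
  have e3 : ∀ᶠ x : ℝ in Filter.atTop, (4 : ℝ) ≤ x := Filter.eventually_ge_atTop _
  obtain ⟨X, hX⟩ := Filter.eventually_atTop.1 (e1.and (e2.and e3))
  refine ⟨max 3 ⌈X⌉₊, le_max_left _ _, fun n hn => ?_⟩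
  have hnX : X ≤ n := (Nat.le_ceil X).trans (by exact_mod_cast (le_max_right _ _).trans hn)
  obtain ⟨h1, h2, h3⟩ := hX n hnX
  set L : ℝ := Real.log n with hL
  have hL1 : 1 ≤ L := (le_max_left _ _).trans h2
  have hLK : 4 * K ≤ L := (le_max_right _ _).trans h2
  have hL0 : 0 < L := by linarith
  have hn0 : (0 : ℝ) < n := by linarith
  have hLA : 1 ≤ L ^ A := Real.one_le_rpow hL1 hA.le
  have hLA0 : 0 < L ^ A := by linarith
  set h : ℝ := n / L ^ A with hh
  have hh0 : 0 < h := by positivity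
  have hhn : h ≤ n := div_le_self hn0.le hLA
  rw [Real.norm_of_nonneg (by positivity), Real.norm_of_nonneg (by positivity), ← Real.sqrt_eq_rpow] at h1
  -- the power `L^(-(A+1))`
  have hpow : (n : ℝ) * L ^ (-(A + 1)) = h / L := by
    rw [hh, show -(A + 1) = -A + -1 by ring, Real.rpow_add hL0, Real.rpow_neg hL0.le, Real.rpow_neg_one]
    field_simp
  have hp0 : 0 < L ^ (-(A + 1)) := by positivity
  -- upper end
  have hb2 : 2 ≤ (n : ℝ) + h := by linarith
  have hpb := hpsi _ hb2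
  have hlb : L ≤ Real.log (n + h) := Real.log_le_log hn0 (by linarith)
  have hpb2 : (n : ℝ) + h - 2 * C * (h / L) ≤ Chebyshev.psi (n + h) := by
    have f1 : (Real.log ((n : ℝ) + h)) ^ (-(A + 1)) ≤ L ^ (-(A + 1)) :=
      Real.rpow_le_rpow_of_nonpos hL0 hlb (by linarith)
    have f2 : C * ((n : ℝ) + h) * (Real.log ((n : ℝ) + h)) ^ (-(A + 1)) ≤ C * (2 * n) * L ^ (-(A + 1)) := by
      have g2 : 0 ≤ (Real.log ((n : ℝ) + h)) ^ (-(A + 1)) := Real.rpow_nonneg (by linarith) _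
      have g3 : C * ((n : ℝ) + h) ≤ C * (2 * n) := by
        apply mul_le_mul_of_nonneg_left _ hC.le
        linarith
      exact mul_le_mul g3 f1 g2 (by positivity)
    have f3 : C * (2 * n) * L ^ (-(A + 1)) = 2 * C * (h / L) := by rw [← hpow]; ring
    have f4 := (abs_le.1 hpb).1
    linarith
  -- lower end
  have ha2 : 2 ≤ (n : ℝ) - 1 := by linarith
  have hpa := hpsi _ ha2
  have hla : L / 2 ≤ Real.log (n - 1) := by
    have f1 : Real.log (Real.sqrt n) ≤ Real.log (n - 1) := by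
      refine Real.log_le_log (by positivity) ?_
      rw [Real.sqrt_le_left (by linarith)]
      nlinarith
    rw [Real.log_sqrt hn0.le] at f1
    exact f1
  have hpa2 : Chebyshev.psi (n - 1) ≤ (n : ℝ) - 1 + 2 ^ (A + 1) * C * (h / L) := by
    have f1 : (Real.log ((n : ℝ) - 1)) ^ (-(A + 1)) ≤ (L / 2) ^ (-(A + 1)) :=
      Real.rpow_le_rpow_of_nonpos (by positivity) hla (by linarith)
    have f0 : (L / 2) ^ (-(A + 1)) = 2 ^ (A + 1) * L ^ (-(A + 1)) := by
      rw [Real.div_rpow hL0.le (by norm_num), Real.rpow_neg (by norm_num : (0:ℝ) ≤ 2), div_inv_eq_mul,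
        mul_comm]
    have f2 : C * ((n : ℝ) - 1) * (Real.log ((n : ℝ) - 1)) ^ (-(A + 1)) ≤
        C * n * (2 ^ (A + 1) * L ^ (-(A + 1))) := by
      rw [← f0]
      have g1 : 0 ≤ (L / 2) ^ (-(A + 1)) := by positivity
      have g2 : 0 ≤ (Real.log ((n : ℝ) - 1)) ^ (-(A + 1)) :=
        Real.rpow_nonneg (by linarith) _
      have g3 : C * ((n : ℝ) - 1) ≤ C * n := by
        apply mul_le_mul_of_nonneg_left _ hC.le
        linarith
      exact mul_le_mul g3 f1 g2 (by positivity)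
    have f3 : C * n * (2 ^ (A + 1) * L ^ (-(A + 1))) = 2 ^ (A + 1) * C * (h / L) := by rw [← hpow]; ring
    have f4 := (abs_le.1 hpa).2
    linarith
  -- passing to theta
  have ht1 := Chebyshev.psi_sub_theta_le (x := (n : ℝ) + h) (by linarith)
  have ht2 := Chebyshev.theta_le_psi ((n : ℝ) - 1)
  have hKL : (2 * C + 2 ^ (A + 1) * C) * (h / L) ≤ h / 4 := by
    have f1 : 2 * C + 2 ^ (A + 1) * C = K := by rw [hK]; ring
    rw [f1, mul_div_assoc', div_le_div_iff₀ hL0 (by norm_num)]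
    nlinarith
  have herr : 2 * Real.sqrt (n + h) * Real.log (n + h) ≤ h / 4 := by
    have f1 : Real.sqrt (n + h) ≤ 1.5 * Real.sqrt n := by
      rw [Real.sqrt_le_left (by positivity), mul_pow, Real.sq_sqrt hn0.le]
      linarith
    have f2 : Real.log (n + h) ≤ 2 * L := by
      have g1 : Real.log ((n : ℝ) + h) ≤ Real.log ((n : ℝ) * n) :=
        Real.log_le_log (by linarith) (by nlinarith)
      rw [Real.log_mul hn0.ne' hn0.ne'] at g1
      linarith
    have f3 : 0 ≤ Real.log ((n : ℝ) + h) := by linarith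
    have f4 : 2 * Real.sqrt (n + h) * Real.log (n + h) ≤ 2 * (1.5 * Real.sqrt n) * (2 * L) := by
      gcongr
    refine f4.trans ?_
    have f5 : L * L ^ A ≤ 1 / 100 * Real.sqrt n := by
      have : L ^ (A + 1) = L * L ^ A := by rw [Real.rpow_add hL0, Real.rpow_one, mul_comm]
      rw [← this]
      exact h1
    have f6 : Real.sqrt n * Real.sqrt n = n := Real.mul_self_sqrt hn0.le
    have f7 : Real.sqrt n * (L * L ^ A) ≤ n / 100 := by
      calc Real.sqrt n * (L * L ^ A) ≤ Real.sqrt n * (1 / 100 * Real.sqrt n) :=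
            mul_le_mul_of_nonneg_left f5 (Real.sqrt_nonneg _)
        _ = 1 / 100 * (Real.sqrt n * Real.sqrt n) := by ring
        _ = n / 100 := by rw [f6]; ring
    rw [hh, div_div, le_div_iff₀ (by positivity)]
    nlinarith
  have hlt : Chebyshev.theta ((n : ℝ) - 1) < Chebyshev.theta (n + h) := by
    have f1 : (2 * C + 2 ^ (A + 1) * C) * (h / L) = 2 * C * (h / L) + 2 ^ (A + 1) * C * (h / L) := by ring
    linarith
  obtain ⟨p, hp, hp1, hp2⟩ := prime_of_theta (by linarith) (by linarith) hlt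
  refine ⟨p, hp, ?_, hp2⟩
  have hp3 : (n : ℝ) < p + 1 := by linarith
  have hp4 : n < p + 1 := by exact_mod_cast hp3
  omega

end Pool.Agent.H2.GA
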