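import Pool.Agent.H2.GA.Defs

/-!
# [H2 GA SPC] The gap of a Cayley incidence graph from its character sums

PROOF of `gap_ge`.  `le_gap_incidence` (H17/Incidence.lean) with `k = |D|`, `c = σ^2` (`√(σ^2) = σ`).  Degrees: `y ↦ y - x`
resp. `x ↦ y - x` are bijections.  `hP`: for `f : G → ℝ` put `F y = ∑_x [y - x ∈ D] f x = ∑_(a ∈ D) f (y - a)`; claim
`σ^2 ∑ f^2 ≤ ∑ F^2`.  Let `h^(ψ) = ∑_x h x * conj (ψ x)` (`ψ : AddChar G ℂ`).  PARSEVAL: `∑_ψ ‖h^(ψ)‖^2 = |G| ∑ ‖h x‖^2`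
(expand, `AddChar.sum_apply_eq_ite`, `conj (ψ x) * ψ y = ψ (y - x)`: `AddChar.map_sub_eq_conj_mul` or `AddChar.map_neg_eq_conj`).
`F^(ψ) = conj (∑_(a ∈ D) ψ a) * f^(ψ)`, so `‖F^(ψ)‖^2 ≥ σ^2 ‖f^(ψ)‖^2`; sum over `ψ` and divide by `|G|`.
`hB`: the same with `D` replaced by `-D`: `‖∑_(a ∈ D) ψ (-a)‖ = ‖∑_(a ∈ D) ψ a‖`.

PROOF of `planar_norm`.  `‖∑_D ψ‖^2 = ∑_(a, b ∈ D) ψ (a - b) = |D| + ∑_(g ≠ 0) ψ g = |D| - 1`, because the pairs `a ≠ b` of
`D × D` correspond to the nonzero `g` (`Planar`), and `∑_g ψ g = 0` for `ψ ≠ 0` (`AddChar.sum_eq_zero_of_ne_one` / `sum_eq_zero_iff_ne_zero`).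
-/

namespace Pool.Agent.H2.GA

open Finset Pool.Agent.H17

open scoped ComplexConjugate

/-- Parseval -/
private theorem pars {G : Type} [AddCommGroup G] [Fintype G] (f : G → ℝ) :
    ∑ ψ : AddChar G ℂ, ‖∑ x, (f x : ℂ) * ψ x‖ ^ 2 = (Fintype.card G : ℝ) * ∑ x, f x ^ 2 := by
  classical
  have h1 : ∀ ψ : AddChar G ℂ, ((‖∑ x, (f x : ℂ) * ψ x‖ ^ 2 : ℝ) : ℂ) =
      ∑ x, ∑ y, (f x : ℂ) * (f y : ℂ) * ψ (x + -y) := by
    intro ψ
    rw [Complex.ofReal_pow, ← Complex.mul_conj', map_sum, sum_mul_sum]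
    refine sum_congr rfl fun x _ => sum_congr rfl fun y _ => ?_
    rw [map_mul, Complex.conj_ofReal, ← AddChar.map_neg_eq_conj, AddChar.map_add_eq_mul]
    ring
  have h2 : ((∑ ψ : AddChar G ℂ, ‖∑ x, (f x : ℂ) * ψ x‖ ^ 2 : ℝ) : ℂ) =
      (((Fintype.card G : ℝ) * ∑ x, f x ^ 2 : ℝ) : ℂ) := by
    rw [Complex.ofReal_sum, sum_congr rfl fun ψ _ => h1 ψ, sum_comm]
    push_cast
    rw [mul_sum]
    refine sum_congr rfl fun x _ => ?_
    rw [sum_comm, sum_eq_single x]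
    · rw [← mul_sum, AddChar.sum_apply_eq_ite, if_pos (add_neg_cancel x)]
      ring
    · intro y _ hy
      rw [← mul_sum, AddChar.sum_apply_eq_ite, if_neg, mul_zero]
      intro h
      exact hy (add_neg_eq_zero.1 h).symm
    · intro h
      exact absurd (mem_univ x) h
  exact_mod_cast h2

private theorem core {G : Type} [AddCommGroup G] [Fintype G] (f F : G → ℝ) (c : AddChar G ℂ → ℂ) (σ : ℝ)
    (hσ : 0 ≤ σ) (h : ∀ ψ, σ ≤ ‖c ψ‖)
    (hF : ∀ ψ : AddChar G ℂ, ∑ y, (F y : ℂ) * ψ y = c ψ * ∑ x, (f x : ℂ) * ψ x) :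
    σ ^ 2 * ∑ x, f x ^ 2 ≤ ∑ y, F y ^ 2 := by
  have hG : (0 : ℝ) < Fintype.card G := by
    have : 0 < Fintype.card G := Fintype.card_pos_iff.2 ⟨0⟩
    exact_mod_cast this
  have h1 : (Fintype.card G : ℝ) * (σ ^ 2 * ∑ x, f x ^ 2) ≤ (Fintype.card G : ℝ) * ∑ y, F y ^ 2 := by
    rw [← pars F, show (Fintype.card G : ℝ) * (σ ^ 2 * ∑ x, f x ^ 2) =
      σ ^ 2 * ((Fintype.card G : ℝ) * ∑ x, f x ^ 2) by ring, ← pars f, mul_sum]
    refine sum_le_sum fun ψ _ => ?_
    rw [hF ψ, norm_mul, mul_pow]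
    exact mul_le_mul_of_nonneg_right (pow_le_pow_left₀ hσ (h ψ) 2) (by positivity)
  exact le_of_mul_le_mul_left h1 hG

open Classical in
private theorem sum_sub {G : Type} [AddCommGroup G] [Fintype G] (D : Finset G) (ψ : AddChar G ℂ) (x : G) :
    ∑ y, (if CI D x y then ψ y else 0) = (∑ a ∈ D, ψ a) * ψ x := by
  have h1 : ∑ y, (if CI D x y then ψ y else 0) = ∑ z, (if z ∈ D then ψ (z + x) else 0) := by
    refine Fintype.sum_equiv (Equiv.subRight x) _ _ fun y => ?_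
    simp only [Equiv.subRight_apply, sub_add_cancel]
    by_cases hb : y - x ∈ D
    · rw [if_pos hb, if_pos (show CI D x y from hb)]
    · rw [if_neg hb, if_neg (show ¬ CI D x y from hb)]
  rw [h1, ← sum_filter, filter_mem_eq_inter, univ_inter, sum_mul]
  exact sum_congr rfl fun a _ => AddChar.map_add_eq_mul _ _ _

open Classical in
private theorem sum_sub' {G : Type} [AddCommGroup G] [Fintype G] (D : Finset G) (ψ : AddChar G ℂ) (y : G) :
    ∑ x, (if CI D x y then ψ x else 0) = (∑ a ∈ D, ψ (-a)) * ψ y := by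
  have h1 : ∑ x, (if CI D x y then ψ x else 0) = ∑ z, (if z ∈ D then ψ (-z + y) else 0) := by
    refine Fintype.sum_equiv (Equiv.subLeft y) _ _ fun x => ?_
    simp only [Equiv.subLeft_apply, neg_sub, sub_add_cancel]
    by_cases hb : y - x ∈ D
    · rw [if_pos hb, if_pos (show CI D x y from hb)]
    · rw [if_neg hb, if_neg (show ¬ CI D x y from hb)]
  rw [h1, ← sum_filter, filter_mem_eq_inter, univ_inter, sum_mul]
  exact sum_congr rfl fun a _ => AddChar.map_add_eq_mul _ _ _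

theorem gap_ge {G : Type} [AddCommGroup G] [Fintype G] (D : Finset G) (hD : 0 < D.card) (σ : ℝ)
    (hσ : 0 ≤ σ) (h : ∀ ψ : AddChar G ℂ, σ ≤ ‖∑ x ∈ D, ψ x‖) :
    σ / D.card ≤ gap (incidenceGraph (CI D)) := by
  classical
  have hne : Nonempty G := ⟨0⟩
  have key := le_gap_incidence (CI D) D.card hD ?_ ?_ (σ ^ 2) (by positivity) ?_ ?_
  · rwa [Real.sqrt_sq hσ] at key
  · intro p
    have e : (univ.filter fun b => CI D p b) = D.map (Equiv.addRight p).toEmbedding := by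
      ext b
      simp only [mem_filter, mem_univ, true_and, mem_map, Equiv.coe_toEmbedding, Equiv.coe_addRight]
      constructor
      · intro hb
        exact ⟨b - p, hb, sub_add_cancel _ _⟩
      · rintro ⟨a, ha, rfl⟩
        show a + p - p ∈ D
        rwa [add_sub_cancel_right]
    rw [e, card_map]
  · intro b
    have e : (univ.filter fun p => CI D p b) = D.map (Equiv.subLeft b).toEmbedding := by
      ext p
      simp only [mem_filter, mem_univ, true_and, mem_map, Equiv.coe_toEmbedding, Equiv.subLeft_apply]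
      constructor
      · intro hb
        exact ⟨b - p, hb, sub_sub_cancel _ _⟩
      · rintro ⟨a, ha, rfl⟩
        show b - (b - a) ∈ D
        rwa [sub_sub_cancel]
    rw [e, card_map]
  · intro f
    refine core f (fun b => ∑ p, if CI D p b then f p else 0) (fun ψ => ∑ a ∈ D, ψ a) σ hσ h fun ψ => ?_
    have e1 : ∀ y, (((∑ p, if CI D p y then f p else 0 : ℝ)) : ℂ) * ψ y =
        ∑ p, (f p : ℂ) * (if CI D p y then ψ y else 0) := by
      intro y
      rw [Complex.ofReal_sum, sum_mul]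
      refine sum_congr rfl fun p _ => ?_
      split_ifs <;> simp
    rw [sum_congr rfl fun y _ => e1 y, sum_comm, mul_sum]
    refine sum_congr rfl fun p _ => ?_
    rw [← mul_sum, sum_sub]
    ring
  · intro f
    refine core f (fun p => ∑ b, if CI D p b then f b else 0) (fun ψ => ∑ a ∈ D, ψ (-a)) σ hσ (fun ψ => ?_)
      fun ψ => ?_
    · have e : ∑ a ∈ D, ψ (-a) = conj (∑ a ∈ D, ψ a) := by
        rw [map_sum]
        exact sum_congr rfl fun a _ => AddChar.map_neg_eq_conj _ _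
      rw [e, RCLike.norm_conj]
      exact h ψ
    have e1 : ∀ y, (((∑ b, if CI D y b then f b else 0 : ℝ)) : ℂ) * ψ y =
        ∑ b, (f b : ℂ) * (if CI D y b then ψ y else 0) := by
      intro y
      rw [Complex.ofReal_sum, sum_mul]
      refine sum_congr rfl fun p _ => ?_
      split_ifs <;> simp
    rw [sum_congr rfl fun y _ => e1 y, sum_comm, mul_sum]
    refine sum_congr rfl fun p _ => ?_
    rw [← mul_sum, sum_sub']
    ring

theorem planar_norm {G : Type} [AddCommGroup G] [Fintype G] (D : Finset G) (hD : Planar D)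
    (ψ : AddChar G ℂ) (hψ : ψ ≠ 0) : ‖∑ x ∈ D, ψ x‖ ^ 2 = (D.card : ℝ) - 1 := by
  classical
  have h1 : ((‖∑ x ∈ D, ψ x‖ ^ 2 : ℝ) : ℂ) = (((D.card : ℝ) - 1 : ℝ) : ℂ) := by
    rw [Complex.ofReal_pow, ← Complex.mul_conj', map_sum, sum_mul_sum, ← sum_product']
    have h2 : ∀ z ∈ D ×ˢ D, ψ z.1 * conj (ψ z.2) = ψ (z.1 - z.2) := by
      intro z _
      rw [← AddChar.map_neg_eq_conj, sub_eq_add_neg, AddChar.map_add_eq_mul]
    rw [sum_congr rfl h2, ← diag_union_offDiag, sum_union (disjoint_diag_offDiag D), sum_diag]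
    have h3 : ∑ x ∈ D, ψ ((x, x).1 - (x, x).2) = (D.card : ℂ) := by
      rw [sum_congr rfl fun x _ => by rw [sub_self, AddChar.map_zero_eq_one]]
      simp
    have h4 : ∑ z ∈ D.offDiag, ψ (z.1 - z.2) = ∑ g ∈ (univ : Finset G).erase 0, ψ g := by
      refine sum_bij (fun z _ => z.1 - z.2) ?_ ?_ ?_ ?_
      · intro z hz
        rw [mem_offDiag] at hz
        exact mem_erase.2 ⟨sub_ne_zero.2 hz.2.2, mem_univ _⟩
      · intro z hz w hw hzw
        rw [mem_offDiag] at hz hw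
        obtain ⟨u, -, hu⟩ := hD (z.1 - z.2) (sub_ne_zero.2 hz.2.2)
        rw [hu z ⟨hz.1, hz.2.1, rfl⟩, hu w ⟨hw.1, hw.2.1, hzw.symm⟩]
      · intro g hg
        obtain ⟨u, ⟨hu1, hu2, hu3⟩, -⟩ := hD g (ne_of_mem_erase hg)
        refine ⟨u, mem_offDiag.2 ⟨hu1, hu2, ?_⟩, hu3⟩
        intro h
        rw [h, sub_self] at hu3
        exact ne_of_mem_erase hg hu3.symm
      · intro z _
        rfl
    have h5 : ∑ g ∈ (univ : Finset G).erase 0, ψ g = -1 := by
      have h6 := sum_erase_add (univ : Finset G) (fun g => ψ g) (mem_univ 0)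
      rw [AddChar.sum_eq_zero_iff_ne_zero.2 hψ, AddChar.map_zero_eq_one] at h6
      exact eq_neg_of_add_eq_zero_left h6
    rw [h3, h4, h5]
    push_cast
    ring
  exact_mod_cast h1

end Pool.Agent.H2.GA
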