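import Pool.Agent.H2.GA.Defs

/-!
# [H2 GA THN] A subset of given size with small character sums

PROOF.  `v = |G|`, `m = |D|`.  If `2 s ≤ T` (e.g. `s = 0`) take ANY `R ⊆ D` with `s` elements: `‖∑_R ψ‖ ≤ s ≤ T`
(`‖ψ x‖ = 1`: `AddChar.norm_apply`).  Let now `T < 2 s`, `q0 = s/m ∈ (0,1]`.  Give `S ⊆ D` the weight
`w(S) = q0^|S| (1-q0)^(m-|S|)` (sum `1`: `Finset.prod_add` / `Finset.sum_pow_mul_eq_add_pow`).  For real `x : G → ℝ`, `|x| ≤ 1`,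
`0 ≤ λ ≤ 1`:  `∑_(S ⊆ D) w(S) exp(λ (∑_S x - q0 ∑_D x)) = ∏_(a ∈ D) (q0 e^(λ(1-q0)x_a) + (1-q0) e^(-λ q0 x_a)) ≤ exp(λ^2 s)`,
because `e^t ≤ 1 + t + t^2` for `|t| ≤ 1` (`Real.abs_exp_sub_one_sub_id_le`) gives factor
`≤ 1 + q0(1-q0)(λ x_a)^2 ≤ 1 + q0 λ^2 ≤ exp(q0 λ^2)`.
With `λ = T/(2s) ≤ 1`: the `S` with `∑_S x - q0 ∑_D x > T` have total weight `≤ exp(λ^2 s - λ T) = exp(-T^2/(4s))
≤ exp(-4 log(8v)) = (8v)^(-4)` (hypothesis on `T`).  Use this for `x = ± Re ψ, ± Im ψ`, all `v` characters `ψ` (`AddChar.card_eq`):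
the bad weight is `≤ 4 v (8v)^(-4) < 1`, so some `S ⊆ D` has `|Re ∑_S ψ - q0 Re ∑_D ψ| ≤ T`, same with `Im`, for all `ψ`; for
`ψ = 0` (trivial): `| |S| - s | ≤ T`.  Remove from `S`, or add to `S` (from `D \ S`), `| |S| - s | ≤ T` elements to get `R ⊆ D` with
`|R| = s`: every `‖∑ ψ‖` changes by `≤ T`.  So `‖∑_R ψ‖ ≤ q0 ‖∑_D ψ‖ + 2T + T`.
-/

namespace Pool.Agent.H2.GA

open Finset

theorem thin {G : Type} [AddCommGroup G] [Fintype G] (D : Finset G) (s : ℕ) (hs : s ≤ D.card) (T : ℝ)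
    (hT0 : 0 ≤ T) (hT : 16 * (s : ℝ) * Real.log (8 * Fintype.card G) ≤ T ^ 2) :
    ∃ R ⊆ D, R.card = s ∧ ∀ ψ : AddChar G ℂ,
      ‖∑ x ∈ R, ψ x‖ ≤ (s : ℝ) / D.card * ‖∑ x ∈ D, ψ x‖ + 4 * T := by
  sorry

end Pool.Agent.H2.GA
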