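import Pool.Agent.H2.RG.Res

/-!
# [H2 GA UPP] Upper bound for `gap(G_{≥d})` and comparison of the two suprema

PROOF of `upper`.  Let `G ∈ G_{≥d}`.  If `gap G < √d/(d+1)`, then `√d/(d+1) ≤ √(d-1)/d` (squares: `d^3 ≤ (d-1)(d+1)^2`).
Otherwise by `Pool.Agent.H2.RG.final` (first clause, `11 ≤ d`) `G` is the incidence graph of a plane of order `d - 1`, and
`gap G = √(d-1)/d`, or of order `d`, and `gap G = √d/(d+1)` (`Pool.Agent.H17.Exact.IsPlaneIncidenceGraph.gap_eq`, file H17/ExactJ.lean).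
So every element of the set is `≤ √(d-1)/d`; `csSup_le` if the set is nonempty, and `sSup ∅ = 0` otherwise.
PROOF of `reg_le`, `le_reg`: as `le_gapMinDegree` in H17/Families.lean (`gap_le_one`, `InRegular.inMinDegree`), `csSup_le_csSup`-like.
-/

namespace Pool.Agent.H2.GA

open Finset Pool.Agent.H17

private theorem plane_ord {d : ℕ} (hd : 2 ≤ d) :
    √((d - 1 : ℕ) : ℝ) / ((d - 1 : ℕ) + 1) = √((d : ℝ) - 1) / d := by
  rw [Nat.cast_sub (by omega), Nat.cast_one, sub_add_cancel]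

private theorem reg_sub {d : ℕ} : {g : ℝ | ∃ (V : Type) (_ : Fintype V) (G : SimpleGraph V), InRegular d G ∧ g = gap G} ⊆
    {g : ℝ | ∃ (V : Type) (_ : Fintype V) (G : SimpleGraph V), InMinDegree d G ∧ g = gap G} := by
  rintro g ⟨V, hV, G, hG, rfl⟩
  exact ⟨V, hV, G, InRegular.inMinDegree G hG, rfl⟩

theorem upper (d : ℕ) (hd : 11 ≤ d) : gapMinDegree d ≤ √((d : ℝ) - 1) / d := by
  have h0 : √(d : ℝ) / (d + 1) ≤ √((d : ℝ) - 1) / d := by
    rw [← plane_ord (by omega : 2 ≤ d)]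
    exact sqrt_mono_planes (by omega)
  refine Real.sSup_le ?_ (by positivity)
  rintro g ⟨V, _, G, hG, rfl⟩
  by_cases h : √(d : ℝ) / (d + 1) ≤ gap G
  · rcases (Pool.Agent.H2.RG.final.1 d (Or.inr hd) V G hG).1 h with h1 | h1
    · rw [h1.gap_eq, plane_ord (by omega)]
    · rw [h1.gap_eq]
      exact h0
  · exact (not_le.1 h).le.trans h0

theorem le_reg {V : Type} [Fintype V] (G : SimpleGraph V) (d : ℕ) (hd : 0 < d) (h : InRegular d G) :
    gap G ≤ gapRegular d :=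
  le_csSup ((bddAbove_minDegree hd).mono reg_sub) ⟨V, _, G, h, rfl⟩

theorem reg_le {V : Type} [Fintype V] (G : SimpleGraph V) (d : ℕ) (hd : 0 < d) (h : InRegular d G) :
    gapRegular d ≤ gapMinDegree d :=
  csSup_le_csSup (bddAbove_minDegree hd) ⟨gap G, V, _, G, h, rfl⟩ reg_sub

end Pool.Agent.H2.GA
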