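import Pool.Agent.H2.GA.Sng
import Pool.Agent.H2.GA.Thn
import Pool.Agent.H2.GA.Spc
import Pool.Agent.H2.GA.Cnn
import Pool.Agent.H2.GA.Prm
import Pool.Agent.H2.GA.Upp

/-!
# [H2 GA FIN] `gap(G_{=d})` and `gap(G_{≥d})` are asymptotically `1/√d` for all `d`
-/

namespace Pool.Agent.H2.GA

open Finset Filter Pool.Agent.H17 Topology

private theorem ev (A : ℝ) (hA : 0 < A) : ∃ L0 : ℝ, 5 ≤ L0 ∧ ∀ L : ℝ, L0 ≤ L →
    Real.exp (-L) + L ^ (-(2 * A + 4)) + 64 * L ^ (-(A + 3 / 2)) ≤ (2 * L) ^ (-A) := by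
  have h1 : Tendsto (fun L : ℝ => L ^ A * Real.exp (-L)) atTop (𝓝 0) := by
    have := tendsto_rpow_mul_exp_neg_mul_atTop_nhds_zero A 1 one_pos
    simpa using this
  have h2 : Tendsto (fun L : ℝ => L ^ (-(A + 4))) atTop (𝓝 0) :=
    tendsto_rpow_neg_atTop (by linarith)
  have h3 : Tendsto (fun L : ℝ => L ^ (-(3 / 2 : ℝ))) atTop (𝓝 0) :=
    tendsto_rpow_neg_atTop (by norm_num)
  have h4 : Tendsto (fun L : ℝ => L ^ A * Real.exp (-L) + L ^ (-(A + 4)) +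
      64 * L ^ (-(3 / 2 : ℝ))) atTop (𝓝 (0 + 0 + 64 * 0)) := (h1.add h2).add (h3.const_mul 64)
  have h40 : (0 + 0 + 64 * 0 : ℝ) < 2 ^ (-A) := by
    simp only [add_zero, mul_zero]
    exact Real.rpow_pos_of_pos (by norm_num) _
  have h5 := (tendsto_order.1 h4).2 _ h40
  obtain ⟨L1, hL1⟩ := eventually_atTop.1 h5
  refine ⟨max 5 L1, le_max_left _ _, fun L hL => ?_⟩
  have hLp : 0 < L := by
    have := (le_max_left 5 L1).trans hL
    linarith
  have h6 := (hL1 L ((le_max_right 5 L1).trans hL)).le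
  have hpos : 0 < L ^ (-A) := Real.rpow_pos_of_pos hLp _
  have e1 : (2 * L) ^ (-A) = 2 ^ (-A) * L ^ (-A) := Real.mul_rpow (by norm_num) hLp.le
  have e2 : L ^ (-(2 * A + 4)) = L ^ (-(A + 4)) * L ^ (-A) := by
    rw [← Real.rpow_add hLp]; congr 1; ring
  have e3 : L ^ (-(A + 3 / 2)) = L ^ (-(3 / 2 : ℝ)) * L ^ (-A) := by
    rw [← Real.rpow_add hLp]; congr 1; ring
  have e4 : Real.exp (-L) = L ^ A * Real.exp (-L) * L ^ (-A) := by
    have : L ^ A * L ^ (-A) = 1 := by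
      rw [← Real.rpow_add hLp]; simp
    calc Real.exp (-L) = Real.exp (-L) * (L ^ A * L ^ (-A)) := by rw [this, mul_one]
      _ = _ := by ring
  rw [e1, e2, e3, e4]
  have h7 := mul_le_mul_of_nonneg_right h6 hpos.le
  linarith

/-- The numerical estimate. -/
private theorem num (A : ℝ) (hA : 0 < A) (L0 : ℝ) (hL0 : 5 ≤ L0)
    (h0 : ∀ L : ℝ, L0 ≤ L →
      Real.exp (-L) + L ^ (-(2 * A + 4)) + 64 * L ^ (-(A + 3 / 2)) ≤ (2 * L) ^ (-A))
    (n p s : ℕ) (hn : L0 ≤ Real.log n) (hnp : n ≤ p)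
    (hp : (p : ℝ) ≤ n + n / (Real.log n) ^ (2 * A + 4)) (hs : s = p - n) :
    √((n : ℝ) + 1) * (1 - (Real.log ((n : ℝ) + 1)) ^ (-A)) ≤
      √(p : ℝ) * (1 - (s : ℝ) / ((p : ℝ) + 1)) -
        16 * √((s : ℝ) * Real.log (8 * ((p : ℝ) ^ 2 + p + 1))) ∧
    (s : ℝ) ≤ n / 5 := by
  set L := Real.log n with hL
  have hL5 : 5 ≤ L := hL0.trans hn
  have hLp : 0 < L := by linarith
  have hn1 : (1 : ℝ) < n := by
    by_contra hc
    rw [not_lt] at hc
    have : L ≤ 0 := Real.log_nonpos (Nat.cast_nonneg n) hc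
    linarith
  have hnpos : (0 : ℝ) < n := by linarith
  have hexp : Real.exp L = n := Real.exp_log hnpos
  have hn6 : (6 : ℝ) ≤ n := by
    have := Real.add_one_le_exp L
    rw [hexp] at this
    linarith
  have hspR : (s : ℝ) = p - n := by
    rw [hs, Nat.cast_sub hnp]
  have hLB : (5 : ℝ) ≤ L ^ (2 * A + 4) := by
    calc (5 : ℝ) ≤ L := hL5
      _ = L ^ (1 : ℝ) := (Real.rpow_one L).symm
      _ ≤ L ^ (2 * A + 4) := Real.rpow_le_rpow_of_exponent_le (by linarith) (by linarith)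
  have hLBp : 0 < L ^ (2 * A + 4) := by linarith
  have hsB : (s : ℝ) ≤ n * L ^ (-(2 * A + 4)) := by
    rw [hspR, Real.rpow_neg hLp.le, ← div_eq_mul_inv]
    linarith
  have hs5 : (s : ℝ) ≤ n / 5 := by
    have h1 : (n : ℝ) / L ^ (2 * A + 4) ≤ n / 5 := by gcongr
    rw [hspR]
    linarith
  refine ⟨?_, hs5⟩
  have hs0 : (0 : ℝ) ≤ s := Nat.cast_nonneg s
  have hpn : (n : ℝ) ≤ p := by exact_mod_cast hnp
  have hp2 : (p : ℝ) ≤ 6 / 5 * n := by linarith
  -- (i)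
  set d : ℝ := (n : ℝ) + 1 with hd
  have hdpos : 0 < d := by linarith
  have hsd : 0 < √d := Real.sqrt_pos.2 hdpos
  have i1 : √d * (1 - Real.exp (-L)) ≤ √(p : ℝ) := by
    have h1 : 1 - Real.exp (-L) = (n - 1) / n := by
      rw [Real.exp_neg, hexp]; field_simp
    have h2 : √d * (1 - Real.exp (-L)) ≤ √(n : ℝ) := by
      rw [h1]
      apply Real.le_sqrt_of_sq_le
      rw [mul_pow, Real.sq_sqrt hdpos.le, div_pow, hd]
      rw [← mul_div_assoc, div_le_iff₀ (by positivity)]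
      nlinarith [hnpos, mul_pos hnpos hnpos]
    exact h2.trans (Real.sqrt_le_sqrt hpn)
  -- (ii)
  have i2 : (s : ℝ) / ((p : ℝ) + 1) ≤ L ^ (-(2 * A + 4)) := by
    rw [div_le_iff₀ (by linarith)]
    have : 0 ≤ L ^ (-(2 * A + 4)) := (Real.rpow_pos_of_pos hLp _).le
    nlinarith
  -- (iii)
  have hlogd : Real.log d ≤ 2 * L := by
    rw [hL, ← Real.log_rpow hnpos]
    apply Real.log_le_log hdpos
    have : (n : ℝ) ^ (2 : ℝ) = n ^ 2 := by norm_cast
    rw [this, hd]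
    nlinarith
  have hv : 8 * ((p : ℝ) ^ 2 + p + 1) ≤ (n : ℝ) ^ 4 := by
    have h1 : 8 * ((p : ℝ) ^ 2 + p + 1) ≤ 8 * ((6 / 5 * n) ^ 2 + 6 / 5 * n + 1) := by
      have : 0 ≤ (p : ℝ) := Nat.cast_nonneg p
      gcongr
    have hn36 : (36 : ℝ) ≤ n ^ 2 := by nlinarith
    nlinarith
  have hlv : Real.log (8 * ((p : ℝ) ^ 2 + p + 1)) ≤ 4 * L := by
    have h1 : Real.log (8 * ((p : ℝ) ^ 2 + p + 1)) ≤ Real.log ((n : ℝ) ^ 4) :=
      Real.log_le_log (by positivity) hv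
    rw [Real.log_pow] at h1
    exact_mod_cast h1
  have i3 : 16 * √((s : ℝ) * Real.log (8 * ((p : ℝ) ^ 2 + p + 1))) ≤
      √d * (64 * L ^ (-(A + 3 / 2))) := by
    have h1 : (s : ℝ) * Real.log (8 * ((p : ℝ) ^ 2 + p + 1)) ≤
        d * (4 * L ^ (-(A + 3 / 2))) ^ 2 := by
      have e : (4 * L ^ (-(A + 3 / 2))) ^ 2 = 16 * (L ^ (-(2 * A + 4)) * L) := by
        have q1 : (L ^ (-(A + 3 / 2))) ^ 2 = L ^ (-(2 * A + 4)) * L := by
          have q2 : L ^ (-(2 * A + 4)) * L = L ^ (-(2 * A + 4)) * L ^ (1 : ℝ) := by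
            rw [Real.rpow_one]
          rw [q2, ← Real.rpow_add hLp, ← Real.rpow_natCast, ← Real.rpow_mul hLp.le]
          congr 1
          push_cast
          ring
        rw [mul_pow, q1]
        norm_num
      rw [e]
      have h2 : 0 ≤ L ^ (-(2 * A + 4)) * L := by positivity
      have hl0 : 0 ≤ Real.log (8 * ((p : ℝ) ^ 2 + p + 1)) := by
        apply Real.log_nonneg
        nlinarith
      calc (s : ℝ) * Real.log (8 * ((p : ℝ) ^ 2 + p + 1))
          ≤ (n * L ^ (-(2 * A + 4))) * (4 * L) := by gcongr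
        _ = n * (4 * (L ^ (-(2 * A + 4)) * L)) := by ring
        _ ≤ d * (16 * (L ^ (-(2 * A + 4)) * L)) := by
            apply mul_le_mul
            · linarith
            · linarith
            · positivity
            · exact hdpos.le
    have h3 := Real.sqrt_le_sqrt h1
    rw [Real.sqrt_mul hdpos.le, Real.sqrt_sq (by positivity)] at h3
    nlinarith
  have i4 : (2 * L) ^ (-A) ≤ (Real.log d) ^ (-A) := by
    have hld : 0 < Real.log d := Real.log_pos (by linarith)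
    rw [Real.rpow_neg (by linarith), Real.rpow_neg hld.le]
    apply inv_anti₀ (Real.rpow_pos_of_pos hld _)
    exact Real.rpow_le_rpow hld.le hlogd hA.le
  have key := h0 L hn
  have hx1 : 0 ≤ Real.exp (-L) := (Real.exp_pos _).le
  have hx2 : Real.exp (-L) ≤ 1 := by
    rw [Real.exp_le_one_iff]; linarith
  have hy1 : 0 ≤ (s : ℝ) / ((p : ℝ) + 1) := by positivity
  have hy2 : (s : ℝ) / ((p : ℝ) + 1) ≤ 1 := by
    rw [div_le_one (by positivity)]
    linarith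
  have i5 : √d * (1 - Real.exp (-L)) * (1 - (s : ℝ) / ((p : ℝ) + 1)) ≤
      √(p : ℝ) * (1 - (s : ℝ) / ((p : ℝ) + 1)) :=
    mul_le_mul_of_nonneg_right i1 (by linarith)
  have i6 : √d * (1 - Real.exp (-L) - (s : ℝ) / ((p : ℝ) + 1)) ≤
      √d * (1 - Real.exp (-L)) * (1 - (s : ℝ) / ((p : ℝ) + 1)) := by
    rw [mul_assoc]
    apply mul_le_mul_of_nonneg_left _ hsd.le
    nlinarith
  have i7 : √d * (1 - (Real.log d) ^ (-A)) ≤
      √d * (1 - Real.exp (-L) - (s : ℝ) / ((p : ℝ) + 1)) - √d * (64 * L ^ (-(A + 3 / 2))) := by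
    rw [← mul_sub]
    apply mul_le_mul_of_nonneg_left _ hsd.le
    linarith
  linarith

theorem final (A : ℝ) (hA : 0 < A) : ∃ N : ℕ, ∀ d : ℕ, N ≤ d →
    (1 - (Real.log d) ^ (-A)) / √(d : ℝ) ≤ gapRegular d ∧ gapRegular d ≤ gapMinDegree d ∧
      gapMinDegree d ≤ √((d : ℝ) - 1) / d := by
  classical
  obtain ⟨L0, hL0, h0⟩ := ev A hA
  obtain ⟨N1, hN13, hN1⟩ := primes (2 * A + 4) (by linarith)
  refine ⟨N1 + ⌈Real.exp L0⌉₊ + 12, fun d hd => ?_⟩
  obtain ⟨n, rfl⟩ : ∃ n, d = n + 1 := ⟨d - 1, by omega⟩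
  have hnN : N1 ≤ n := by omega
  have hnpos : (0 : ℝ) < n := by
    have : 0 < n := by omega
    exact_mod_cast this
  have hne : Real.exp L0 ≤ n := by
    have : ⌈Real.exp L0⌉₊ ≤ n := by omega
    exact (Nat.le_ceil _).trans (by exact_mod_cast this)
  have hn : L0 ≤ Real.log n := by
    rw [Real.le_log_iff_exp_le hnpos]
    exact hne
  obtain ⟨p, hp, hnp, hpn⟩ := hN1 n hnN
  obtain ⟨s, hs⟩ : ∃ s, s = p - n := ⟨_, rfl⟩
  obtain ⟨key, hs5⟩ := num A hA L0 hL0 h0 n p s hn hnp hpn hs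
  obtain ⟨G, i1, i2, D, hv, hDc, hD⟩ := singer p hp
  have hvR : (Fintype.card G : ℝ) = (p : ℝ) ^ 2 + p + 1 := by
    rw [hv]; push_cast; ring
  set W : ℝ := (s : ℝ) * Real.log (8 * ((p : ℝ) ^ 2 + p + 1)) with hW
  have hp0 : (0 : ℝ) ≤ p := Nat.cast_nonneg p
  have hW0 : 0 ≤ W := by
    apply mul_nonneg (Nat.cast_nonneg s)
    apply Real.log_nonneg
    nlinarith
  obtain ⟨R, hR, hRc, hRψ⟩ := thin D s (by omega) (4 * √W) (by positivity) (by
    rw [hvR, mul_pow, Real.sq_sqrt hW0, hW]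
    exact le_of_eq (by ring))
  have hDR : (D \ R).card = n + 1 := by
    rw [card_sdiff_of_subset hR, hDc, hRc]
    omega
  have hsR : (s : ℝ) = p - n := by
    rw [hs, Nat.cast_sub hnp]
  have hs0 : (0 : ℝ) ≤ s := Nat.cast_nonneg s
  have hp65 : (p : ℝ) ≤ 6 / 5 * n := by linarith
  have hn12 : (11 : ℝ) ≤ n := by
    have : 11 ≤ n := by omega
    exact_mod_cast this
  have hx : (Real.log ((n : ℝ) + 1)) ^ (-A) ≤ 1 := by
    have h1 : 1 ≤ Real.log ((n : ℝ) + 1) := by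
      have := Real.log_le_log hnpos (by linarith : (n : ℝ) ≤ n + 1)
      linarith
    exact Real.rpow_le_one_of_one_le_of_nonpos h1 (by linarith)
  set σ : ℝ := √(p : ℝ) * (1 - (s : ℝ) / ((p : ℝ) + 1)) - 16 * √W with hσ
  have hσ0 : 0 ≤ σ := by
    refine le_trans ?_ key
    exact mul_nonneg (Real.sqrt_nonneg _) (by linarith)
  have hq0 : 0 ≤ (s : ℝ) / ((p : ℝ) + 1) := by positivity
  have hall : ∀ ψ : AddChar G ℂ, σ ≤ ‖∑ x ∈ D \ R, ψ x‖ := by
    intro ψ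
    by_cases hψ : ψ = 0
    · subst hψ
      simp only [AddChar.zero_apply, sum_const, hDR, nsmul_eq_mul, mul_one]
      have e : ‖((n + 1 : ℕ) : ℂ)‖ = (n : ℝ) + 1 := by
        rw [Complex.norm_natCast]; push_cast; ring
      rw [e]
      have h1 : σ ≤ √(p : ℝ) := by
        have a1 : √(p : ℝ) * (1 - (s : ℝ) / ((p : ℝ) + 1)) ≤ √(p : ℝ) * 1 :=
          mul_le_mul_of_nonneg_left (by linarith) (Real.sqrt_nonneg _)
        have a2 : 0 ≤ √W := Real.sqrt_nonneg _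
        rw [hσ]
        linarith
      refine h1.trans ?_
      rw [Real.sqrt_le_left (by linarith)]
      nlinarith
    · have h1 := planar_norm D hD ψ hψ
      have h2 : ‖∑ x ∈ D, ψ x‖ = √(p : ℝ) := by
        rw [← Real.sqrt_sq (norm_nonneg (∑ x ∈ D, ψ x)), h1, hDc]
        congr 1
        push_cast
        ring
      have h3 : ∑ x ∈ D \ R, ψ x = ∑ x ∈ D, ψ x - ∑ x ∈ R, ψ x := by
        rw [← sum_sdiff hR]
        ring
      have h4 := hRψ ψ
      rw [h2, hDc] at h4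
      push_cast at h4
      have h5 := norm_sub_norm_le (∑ x ∈ D, ψ x) (∑ x ∈ R, ψ x)
      rw [h3]
      rw [h2] at h5
      rw [hσ]
      linarith
  have hgap := gap_ge (D \ R) (by omega) σ hσ0 hall
  have hreg : InRegular (n + 1) (incidenceGraph (CI (D \ R))) := by
    have := conn D (D \ R) sdiff_subset hD (by omega) (by
      rw [hv, hDR, Nat.add_sub_cancel]
      have h1 : 5 * p ≤ 6 * n := by
        have : (5 : ℝ) * p ≤ 6 * n := by linarith
        exact_mod_cast this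
      nlinarith)
    rwa [hDR] at this
  refine ⟨?_, reg_le _ (n + 1) (by omega) hreg, upper (n + 1) (by omega)⟩
  refine le_trans ?_ (le_reg _ (n + 1) (by omega) hreg)
  refine le_trans ?_ hgap
  rw [hDR]
  push_cast
  have hd0 : (0 : ℝ) < (n : ℝ) + 1 := by linarith
  have hsd : 0 < √((n : ℝ) + 1) := Real.sqrt_pos.2 hd0
  rw [div_le_div_iff₀ hsd hd0]
  have h6 := mul_le_mul_of_nonneg_right key hsd.le
  have h7 : √((n : ℝ) + 1) * √((n : ℝ) + 1) = (n : ℝ) + 1 := Real.mul_self_sqrt hd0.le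
  have h8 : √((n : ℝ) + 1) * (1 - Real.log ((n : ℝ) + 1) ^ (-A)) * √((n : ℝ) + 1) =
      (1 - Real.log ((n : ℝ) + 1) ^ (-A)) * (√((n : ℝ) + 1) * √((n : ℝ) + 1)) := by ring
  rw [h8, h7] at h6
  exact h6

end Pool.Agent.H2.GA
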